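import Mathlib

open Polynomial WeierstrassCurve

namespace Pool.Agent.Results.MP_ae744f_nt.CubeJacobian

noncomputable section

/-- `IsFunctionField g K` says that `K` is the function field `ℚ(C_g)` of the hyperelliptic curve
`C_g : s² = g(t)` over `ℚ`: it is generated over `ℚ` by two elements `t`, `s` with `t`
transcendental over `ℚ` and `s² = g(t)`. -/
def IsFunctionField (g : ℚ[X]) (K : Type) [Field K] [Algebra ℚ K] : Prop :=
  ∃ t s : K, Transcendental ℚ t ∧ s ^ 2 = aeval t g ∧ IntermediateField.adjoin ℚ {t, s} = ⊤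

/-- `JacobianContainsPower g E r` says that `E ^ r` is an isogeny factor over `ℚ` of the Jacobian
`J_g` of `C_g : s² = g(t)`, expressed through morphisms from the curve. With `K = ℚ(C_g)` the group
`E(K)` is the group of `ℚ`-morphisms `C_g → E`, its subgroup `E(ℚ)` is that of constant morphisms,
and `E(K) / E(ℚ)` has finite index in `Hom_ℚ(J_g, E)`. The condition is that `E(K) / E(ℚ)`
contains `r` elements that are linearly independent over `ℤ`. -/
def JacobianContainsPower (g : ℚ[X]) (E : WeierstrassCurve ℚ) (r : ℕ) : Prop :=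
  ∃ (K : Type) (_ : Field K) (_ : DecidableEq K) (_ : Algebra ℚ K), IsFunctionField g K ∧
    ∃ P : Fin r → (E⁄K).toAffine.Point, ∀ n : Fin r → ℤ,
      (∃ Q : (E⁄ℚ).toAffine.Point, ∑ i, n i • P i = Affine.Point.baseChange ℚ K Q) → n = 0

/-- The polynomial `g = 3 (t² + 3) (3 t² + 5) (t⁴ + 7 t² + 16)` of degree `8`. -/
def gPoly : ℚ[X] := 3 * (X ^ 2 + 3) * (3 * X ^ 2 + 5) * (X ^ 4 + 7 * X ^ 2 + 16)

/-- The elliptic curve `y² = x³ - 21 x² + 144 x` over `ℚ`, of `j`-invariant `-1/15`. -/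
def E0 : WeierstrassCurve ℚ := ⟨0, -21, 0, 144, 0⟩

section delta

variable {K : Type} [Field K] [Algebra ℚ K] (D : Derivation ℚ K K) (W : WeierstrassCurve K)

/-- The invariant differential of `W` contracted with the derivation `D`, evaluated at a point. -/
noncomputable def delta : W.toAffine.Point → K
  | .zero => 0
  | .some x y _ => D x / y

variable {W}

theorem dy_of_dx [CharZero K] (h1 : W.a₁ = 0) (h3 : W.a₃ = 0) (d2 : D W.a₂ = 0) (d4 : D W.a₄ = 0)
    (d6 : D W.a₆ = 0) {x y : K} (h : W.toAffine.Nonsingular x y) :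
    D x = y * (D x / y) ∧ D y = (3 * x ^ 2 + 2 * W.a₂ * x + W.a₄) * (D x / y) / 2 := by
  have heq := (Affine.equation_iff _ _).1 h.1
  rw [h1, h3] at heq
  have hD : 2 * y * D y = (3 * x ^ 2 + 2 * W.a₂ * x + W.a₄) * D x := by
    have := congrArg D heq
    simp only [map_add, Derivation.leibniz, Derivation.leibniz_pow, smul_eq_mul, d2, d4, d6,
      nsmul_eq_mul] at this
    simp at this
    linear_combination this
  have hns := ((Affine.nonsingular_iff _ _).1 h).2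
  rw [h1, h3] at hns
  by_cases hy : y = 0
  · subst hy
    simp at hns
    have hx : D x = 0 := by
      have : (3 * x ^ 2 + 2 * W.a₂ * x + W.a₄) * D x = 0 := by rw [← hD]; ring
      rcases mul_eq_zero.1 this with h' | h'
      · exact absurd h'.symm hns
      · exact h'
    simp [hx]
  · constructor
    · field_simp
    · field_simp
      linear_combination hD

theorem eq_of_dx_dy [CharZero K] (h1 : W.a₁ = 0) (h3 : W.a₃ = 0) {x y u : K}
    (h : W.toAffine.Nonsingular x y) (hx : D x = y * u)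
    (hy : D y = (3 * x ^ 2 + 2 * W.a₂ * x + W.a₄) * u / 2) : D x / y = u := by
  have hns := ((Affine.nonsingular_iff _ _).1 h).2
  rw [h1, h3] at hns
  by_cases hy0 : y = 0
  · subst hy0
    simp at hns
    have : (3 * x ^ 2 + 2 * W.a₂ * x + W.a₄) * u = 0 := by
      rw [map_zero] at hy
      linear_combination -2 * hy
    rcases mul_eq_zero.1 this with h' | h'
    · exact absurd h'.symm hns
    · simp [h']
  · rw [hx]; field_simp

/-- chord case -/
theorem chord {a2 a4 a6 x1 y1 x2 y2 u1 u2 l x3 y3 : K} (d2 : D a2 = 0) [CharZero K]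
    (e1 : y1 ^ 2 = x1 ^ 3 + a2 * x1 ^ 2 + a4 * x1 + a6)
    (e2 : y2 ^ 2 = x2 ^ 3 + a2 * x2 ^ 2 + a4 * x2 + a6)
    (hx1 : D x1 = y1 * u1) (hx2 : D x2 = y2 * u2)
    (hy1 : D y1 = (3 * x1 ^ 2 + 2 * a2 * x1 + a4) * u1 / 2)
    (hy2 : D y2 = (3 * x2 ^ 2 + 2 * a2 * x2 + a4) * u2 / 2) (hne : x1 ≠ x2)
    (hl : l = (y1 - y2) / (x1 - x2)) (hx3 : x3 = l ^ 2 - a2 - x1 - x2)
    (hy3 : y3 = -(l * (x3 - x1) + y1)) :
    D x3 = y3 * (u1 + u2) ∧ D y3 = (3 * x3 ^ 2 + 2 * a2 * x3 + a4) * (u1 + u2) / 2 := by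
  have hne' : x1 - x2 ≠ 0 := sub_ne_zero.2 hne
  have hl' : l * (x1 - x2) = y1 - y2 := by rw [hl]; field_simp
  have hDl : D l * (x1 - x2) = D y1 - D y2 - l * (D x1 - D x2) := by
    have := congrArg D hl'
    simp only [Derivation.leibniz, map_sub, smul_eq_mul] at this
    linear_combination this
  have h4 : a4 * (x1 - x2) = ((y1 ^ 2 - y2 ^ 2) - (x1 ^ 3 - x2 ^ 3) - a2 * (x1 ^ 2 - x2 ^ 2)) := by
    linear_combination e2 - e1
  have hDx3 : D x3 = 2 * l * D l - D x1 - D x2 := by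
    rw [hx3]
    simp only [map_sub, Derivation.leibniz_pow, smul_eq_mul, nsmul_eq_mul, d2]
    simp
    ring
  have hDy3 : D y3 = -(D l * (x3 - x1) + l * (D x3 - D x1) + D y1) := by
    rw [hy3]
    simp only [map_sub, map_neg, map_add, Derivation.leibniz, smul_eq_mul]
    ring
  obtain ⟨d, hd⟩ : ∃ d, d = x1 - x2 := ⟨_, rfl⟩
  have hx1' : x1 = x2 + d := by rw [hd]; ring
  have hy1' : y1 = y2 + l * d := by rw [hd]; linear_combination -hl'
  have hd0 : d ≠ 0 := by rw [hd]; exact hne'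
  rw [← hd] at hDl h4
  have h4' : a4 = ((y1 ^ 2 - y2 ^ 2) - (x1 ^ 3 - x2 ^ 3) - a2 * (x1 ^ 2 - x2 ^ 2)) / d := by
    field_simp; exact h4
  have hDl' : D l = (D y1 - D y2 - l * (D x1 - D x2)) / d := by
    field_simp; exact hDl
  have key : D x3 = y3 * (u1 + u2) := by
    rw [hDx3, hDl', hy1, hy2, hx1, hx2, h4', hy3, hx3, hy1', hx1']
    field_simp
    ring
  refine ⟨key, ?_⟩
  rw [hDy3, key, hDl', hy1, hy2, hx1, hx2, h4', hy3, hx3, hy1', hx1']
  field_simp
  ring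

/-- tangent case -/
theorem tangent {a2 a4 x1 y1 u1 l x3 y3 : K} (d2 : D a2 = 0) (d4 : D a4 = 0) [CharZero K]
    (hx1 : D x1 = y1 * u1)
    (hy1 : D y1 = (3 * x1 ^ 2 + 2 * a2 * x1 + a4) * u1 / 2) (hne : y1 ≠ 0)
    (hl : l = (3 * x1 ^ 2 + 2 * a2 * x1 + a4) / (2 * y1)) (hx3 : x3 = l ^ 2 - a2 - x1 - x1)
    (hy3 : y3 = -(l * (x3 - x1) + y1)) :
    D x3 = y3 * (u1 + u1) ∧ D y3 = (3 * x3 ^ 2 + 2 * a2 * x3 + a4) * (u1 + u1) / 2 := by
  have hl' : l * (2 * y1) = 3 * x1 ^ 2 + 2 * a2 * x1 + a4 := by rw [hl]; field_simp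
  have hDl : D l * (2 * y1) = (6 * x1 + 2 * a2) * D x1 - l * (2 * D y1) := by
    have := congrArg D hl'
    have h2 : D (2 : K) = 0 := by simpa using D.map_natCast 2
    have h3 : D (3 : K) = 0 := by simpa using D.map_natCast 3
    simp only [Derivation.leibniz, Derivation.leibniz_pow, map_add, smul_eq_mul, nsmul_eq_mul, d2,
      d4, h2, h3] at this
    simp at this
    linear_combination this
  have hDx3 : D x3 = 2 * l * D l - D x1 - D x1 := by
    rw [hx3]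
    simp only [map_sub, Derivation.leibniz_pow, smul_eq_mul, nsmul_eq_mul, d2]
    simp
    ring
  have hDy3 : D y3 = -(D l * (x3 - x1) + l * (D x3 - D x1) + D y1) := by
    rw [hy3]
    simp only [map_sub, map_neg, map_add, Derivation.leibniz, smul_eq_mul]
    ring
  have h4' : a4 = l * (2 * y1) - 3 * x1 ^ 2 - 2 * a2 * x1 := by linear_combination -hl'
  have hDl' : D l = ((6 * x1 + 2 * a2) * D x1 - l * (2 * D y1)) / (2 * y1) := by
    field_simp; linear_combination hDl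
  have key : D x3 = y3 * (u1 + u1) := by
    rw [hDx3, hDl', hy1, hx1, h4', hy3, hx3]
    field_simp
    ring
  refine ⟨key, ?_⟩
  rw [hDy3, key, hDl', hy1, hx1, h4', hy3, hx3]
  field_simp
  ring

variable [DecidableEq K] [CharZero K]

/-- `delta` is additive. -/
theorem delta_add (h1 : W.a₁ = 0) (h3 : W.a₃ = 0) (d2 : D W.a₂ = 0) (d4 : D W.a₄ = 0)
    (d6 : D W.a₆ = 0) (P Q : W.toAffine.Point) :
    delta D W (P + Q) = delta D W P + delta D W Q := by
  rcases P with _ | ⟨x1, y1, n1⟩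
  · rw [← Affine.Point.zero_def, zero_add]
    simp [delta]
  rcases Q with _ | ⟨x2, y2, n2⟩
  · rw [← Affine.Point.zero_def, add_zero]
    simp [delta]
  obtain ⟨hx1, hy1⟩ := dy_of_dx D h1 h3 d2 d4 d6 n1
  obtain ⟨hx2, hy2⟩ := dy_of_dx D h1 h3 d2 d4 d6 n2
  have e1 := (Affine.equation_iff _ _).1 n1.1
  have e2 := (Affine.equation_iff _ _).1 n2.1
  rw [h1, h3] at e1 e2
  simp only [zero_mul, add_zero] at e1 e2
  by_cases hxy : x1 = x2 ∧ y1 = W.toAffine.negY x2 y2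
  · rw [Affine.Point.add_of_Y_eq hxy.1 hxy.2]
    obtain ⟨rfl, hy⟩ := hxy
    simp only [Affine.negY, h1, h3, zero_mul, sub_zero] at hy
    subst hy
    simp [delta, div_neg]
  · rw [Affine.Point.add_some hxy]
    have n3 := Affine.nonsingular_add n1 n2 hxy
    simp only [delta]
    by_cases hx : x1 = x2
    · subst hx
      have hy : y1 ≠ W.toAffine.negY x1 y2 := fun h => hxy ⟨rfl, h⟩
      have hyy : y1 = y2 := Affine.Y_eq_of_Y_ne n1.1 n2.1 rfl hy
      subst hyy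
      have hy0 : y1 ≠ 0 := by
        intro h
        apply hy
        simp [Affine.negY, h1, h3, h]
      have hl : W.toAffine.slope x1 x1 y1 y1 =
          (3 * x1 ^ 2 + 2 * W.a₂ * x1 + W.a₄) / (2 * y1) := by
        rw [Affine.slope_of_Y_ne rfl hy]
        simp only [Affine.negY, h1, h3, zero_mul, sub_zero]
        congr 1
        ring
      have := tangent D (l := W.toAffine.slope x1 x1 y1 y1)
        (x3 := W.toAffine.addX x1 x1 (W.toAffine.slope x1 x1 y1 y1))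
        (y3 := W.toAffine.addY x1 x1 y1 (W.toAffine.slope x1 x1 y1 y1)) d2 d4 hx1 hy1 hy0 hl
        (by simp [Affine.addX, h1]) (by simp [Affine.addY, Affine.negAddY, Affine.negY, h1, h3])
      exact eq_of_dx_dy D h1 h3 n3 this.1 this.2
    · have hl : W.toAffine.slope x1 x2 y1 y2 = (y1 - y2) / (x1 - x2) :=
        Affine.slope_of_X_ne hx
      have := chord D (l := W.toAffine.slope x1 x2 y1 y2)
        (x3 := W.toAffine.addX x1 x2 (W.toAffine.slope x1 x2 y1 y2))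
        (y3 := W.toAffine.addY x1 x2 y1 (W.toAffine.slope x1 x2 y1 y2)) d2 e1 e2 hx1 hx2 hy1 hy2
        hx hl
        (by simp [Affine.addX, h1]) (by simp [Affine.addY, Affine.negAddY, Affine.negY, h1, h3])
      exact eq_of_dx_dy D h1 h3 n3 this.1 this.2

end delta

/-- A model of the function field `ℚ(t)(√g)` of `C_g`. -/
abbrev FF (g : ℚ[X]) : Type := AdjoinRoot (X ^ 2 - C (algebraMap ℚ[X] (RatFunc ℚ) g) : (RatFunc ℚ)[X])

theorem not_sq {g : ℚ[X]} (hg : g.Separable) (hd : 0 < g.natDegree) (b : RatFunc ℚ) :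
    b ^ 2 ≠ algebraMap ℚ[X] (RatFunc ℚ) g := by
  intro h
  have hint : IsIntegral ℚ[X] b := by
    refine ⟨X ^ 2 - C g, monic_X_pow_sub_C _ (by norm_num), ?_⟩
    simp [h]
  obtain ⟨a, ha⟩ := IsIntegrallyClosed.isIntegral_iff.1 hint
  have haa : a ^ 2 = g := by
    apply IsFractionRing.injective ℚ[X] (RatFunc ℚ)
    rw [map_pow, ha, h]
  have hu : IsUnit a := hg.squarefree a ⟨1, by rw [← haa]; ring⟩
  have : g.natDegree = 0 := by
    rw [← haa]
    exact natDegree_eq_zero_of_isUnit (hu.pow 2)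
  omega

theorem irr {g : ℚ[X]} (hg : g.Separable) (hd : 0 < g.natDegree) :
    Irreducible (X ^ 2 - C (algebraMap ℚ[X] (RatFunc ℚ) g) : (RatFunc ℚ)[X]) :=
  X_pow_sub_C_irreducible_of_prime Nat.prime_two (not_sq hg hd)

theorem exists_derivation (g : ℚ[X])
    [Fact (Irreducible (X ^ 2 - C (algebraMap ℚ[X] (RatFunc ℚ) g) : (RatFunc ℚ)[X]))] :
    ∃ D : Derivation ℚ (FF g) (FF g), ∀ p : ℚ[X],
      D (algebraMap ℚ[X] (FF g) p) = algebraMap ℚ[X] (FF g) (derivative p) := by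
  have e1 : Algebra.FormallyEtale ℚ[X] (RatFunc ℚ) :=
    Algebra.FormallyEtale.of_isLocalization (nonZeroDivisors ℚ[X])
  have fd : FiniteDimensional (RatFunc ℚ) (FF g) :=
    (monic_X_pow_sub_C _ (by norm_num)).finite_adjoinRoot
  have e2 : Algebra.FormallyEtale (RatFunc ℚ) (FF g) := Algebra.FormallyEtale.of_isSeparable _ _
  have e3 : Algebra.FormallyEtale ℚ[X] (FF g) := Algebra.FormallyEtale.comp _ (RatFunc ℚ) _
  let D0 : Derivation ℚ ℚ[X] (FF g) := (Algebra.linearMap ℚ[X] (FF g)).compDer derivative'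
  let l1 : TensorProduct ℚ[X] (FF g) (KaehlerDifferential ℚ ℚ[X]) →ₗ[FF g] FF g :=
    LinearMap.liftBaseChange (FF g) D0.liftKaehlerDifferential
  let l2 : KaehlerDifferential ℚ (FF g) →ₗ[FF g] FF g :=
    l1 ∘ₗ (KaehlerDifferential.tensorKaehlerEquivOfFormallyEtale ℚ ℚ[X] (FF g)).symm.toLinearMap
  refine ⟨l2.compDer (KaehlerDifferential.D ℚ (FF g)), fun p => ?_⟩
  have h := KaehlerDifferential.tensorKaehlerEquivOfFormallyEtale_symm_D_algebraMap ℚ ℚ[X] (FF g) p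
  change l1 ((KaehlerDifferential.tensorKaehlerEquivOfFormallyEtale ℚ ℚ[X] (FF g)).symm
    (KaehlerDifferential.D ℚ (FF g) (algebraMap ℚ[X] (FF g) p))) = _
  rw [h]
  simp [l1, D0]


theorem isFunctionField (g : ℚ[X])
    [Fact (Irreducible (X ^ 2 - C (algebraMap ℚ[X] (RatFunc ℚ) g) : (RatFunc ℚ)[X]))] :
    Transcendental ℚ (algebraMap ℚ[X] (FF g) X) ∧
      (AdjoinRoot.root (X ^ 2 - C (algebraMap ℚ[X] (RatFunc ℚ) g) : (RatFunc ℚ)[X]) : FF g) ^ 2 =
        aeval (algebraMap ℚ[X] (FF g) X) g ∧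
      IntermediateField.adjoin ℚ {algebraMap ℚ[X] (FF g) X,
        (AdjoinRoot.root (X ^ 2 - C (algebraMap ℚ[X] (RatFunc ℚ) g) : (RatFunc ℚ)[X]) : FF g)} = ⊤ := by
  set s : FF g := AdjoinRoot.root (X ^ 2 - C (algebraMap ℚ[X] (RatFunc ℚ) g) : (RatFunc ℚ)[X])
    with hs
  have hinj : Function.Injective (algebraMap ℚ[X] (FF g)) := by
    rw [IsScalarTower.algebraMap_eq ℚ[X] (RatFunc ℚ) (FF g)]
    exact (algebraMap (RatFunc ℚ) (FF g)).injective.comp (IsFractionRing.injective ℚ[X] (RatFunc ℚ))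
  have htr : Transcendental ℚ (algebraMap ℚ[X] (FF g) X) :=
    (transcendental_algebraMap_iff hinj).2 (Polynomial.transcendental_X ℚ)
  have hae : ∀ p : ℚ[X], aeval (algebraMap ℚ[X] (FF g) X) p = algebraMap ℚ[X] (FF g) p := by
    intro p
    rw [aeval_algebraMap_apply, aeval_X_left_apply]
  refine ⟨htr, ?_, ?_⟩
  · rw [hae]
    have h0 := AdjoinRoot.eval₂_root (X ^ 2 - C (algebraMap ℚ[X] (RatFunc ℚ) g) : (RatFunc ℚ)[X])
    simp only [eval₂_sub, eval₂_pow, eval₂_X, eval₂_C] at h0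
    have h1 := sub_eq_zero.1 h0
    rw [← hs] at h1
    rw [h1, IsScalarTower.algebraMap_apply ℚ[X] (RatFunc ℚ) (FF g)]
    rfl
  · set L := IntermediateField.adjoin ℚ {algebraMap ℚ[X] (FF g) X, s} with hL
    have ht : algebraMap ℚ[X] (FF g) X ∈ L :=
      IntermediateField.subset_adjoin _ _ (by simp)
    have hsL : s ∈ L := IntermediateField.subset_adjoin _ _ (by simp)
    have hp : ∀ p : ℚ[X], algebraMap ℚ[X] (FF g) p ∈ L := by
      intro p
      rw [← hae p, aeval_eq_sum_range]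
      refine sum_mem fun i _ => ?_
      rw [Algebra.smul_def]
      exact mul_mem (L.algebraMap_mem _) (pow_mem ht i)
    have hr : ∀ r : RatFunc ℚ, algebraMap (RatFunc ℚ) (FF g) r ∈ L := by
      intro r
      obtain ⟨a, b, -, rfl⟩ := IsFractionRing.div_surjective (A := ℚ[X]) r
      rw [map_div₀, ← IsScalarTower.algebraMap_apply, ← IsScalarTower.algebraMap_apply]
      exact div_mem (hp a) (hp b)
    rw [eq_top_iff]
    intro y _
    induction y using AdjoinRoot.induction_on with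
    | ih p =>
      rw [← AdjoinRoot.aeval_eq p, aeval_eq_sum_range]
      refine sum_mem fun i _ => ?_
      rw [Algebra.smul_def]
      exact mul_mem (hr _) (pow_mem hsL i)

theorem gPoly_natDegree : gPoly.natDegree = 8 := by
  unfold gPoly
  compute_degree!

theorem aeval_gPoly {A : Type} [CommRing A] [Algebra ℚ A] (t : A) :
    aeval t gPoly = 3 * (t ^ 2 + 3) * (3 * t ^ 2 + 5) * (t ^ 4 + 7 * t ^ 2 + 16) := by
  simp [gPoly, map_ofNat]

theorem gPoly_separable : gPoly.Separable := by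
  have s1 : (3 * (X ^ 2 + 3) : ℚ[X]).Separable := by
    refine ⟨C (1 / 9), C (-1 / 18) * X, Polynomial.funext fun x => ?_⟩
    simp
    ring
  have s2 : (3 * X ^ 2 + 5 : ℚ[X]).Separable := by
    refine ⟨C (1 / 5), C (-1 / 10) * X, Polynomial.funext fun x => ?_⟩
    simp
    ring
  have s3 : (X ^ 4 + 7 * X ^ 2 + 16 : ℚ[X]).Separable := by
    refine ⟨C (-7 / 120) * X ^ 2 + C (1 / 16), C (7 / 480) * X ^ 3 + C (17 / 480) * X,
      Polynomial.funext fun x => ?_⟩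
    simp
    ring
  have c12 : IsCoprime (3 * (X ^ 2 + 3) : ℚ[X]) (3 * X ^ 2 + 5) :=
    ⟨C (1 / 4), C (-1 / 4), Polynomial.funext fun x => by simp; ring⟩
  have c13 : IsCoprime (3 * (X ^ 2 + 3) : ℚ[X]) (X ^ 4 + 7 * X ^ 2 + 16) :=
    ⟨C (-1 / 12) * (X ^ 2 + 4), C (1 / 4), Polynomial.funext fun x => by simp; ring⟩
  have c23 : IsCoprime (3 * X ^ 2 + 5 : ℚ[X]) (X ^ 4 + 7 * X ^ 2 + 16) :=
    ⟨C (-9 / 64) * (C (1 / 3) * X ^ 2 + C (16 / 9)), C (9 / 64),
      Polynomial.funext fun x => by simp; ring⟩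
  exact (s1.mul s2 c12).mul s3 (c13.mul_left c23)

instance E0_elliptic : E0.IsElliptic := by
  rw [isElliptic_iff]
  simp only [E0, WeierstrassCurve.Δ, WeierstrassCurve.b₂, WeierstrassCurve.b₄,
    WeierstrassCurve.b₆, WeierstrassCurve.b₈]
  norm_num

section points

variable {K : Type} [Field K]

theorem eqn_a {t s : K} (hs : s ^ 2 = 3 * (t ^ 2 + 3) * (3 * t ^ 2 + 5) * (t ^ 4 + 7 * t ^ 2 + 16))
    (h1 : t ^ 2 + 3 ≠ 0) :
    (6 * s / (t ^ 2 + 3) ^ 2) ^ 2 = (3 * (3 * t ^ 2 + 5) / (t ^ 2 + 3)) ^ 3 -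
      21 * (3 * (3 * t ^ 2 + 5) / (t ^ 2 + 3)) ^ 2 + 144 * (3 * (3 * t ^ 2 + 5) / (t ^ 2 + 3)) := by
  field_simp
  rw [hs]
  ring

theorem eqn_b {t s : K} (hs : s ^ 2 = 3 * (t ^ 2 + 3) * (3 * t ^ 2 + 5) * (t ^ 4 + 7 * t ^ 2 + 16))
    (h1 : t ^ 2 + 3 ≠ 0) :
    (6 * s / (t ^ 2 + 3) ^ 2) ^ 2 = (6 * (t ^ 2 - t + 4) / (t ^ 2 + 3)) ^ 3 -
      21 * (6 * (t ^ 2 - t + 4) / (t ^ 2 + 3)) ^ 2 + 144 * (6 * (t ^ 2 - t + 4) / (t ^ 2 + 3)) := by
  field_simp
  rw [hs]
  ring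

theorem eqn_c {t s : K} (hs : s ^ 2 = 3 * (t ^ 2 + 3) * (3 * t ^ 2 + 5) * (t ^ 4 + 7 * t ^ 2 + 16))
    (h1 : t ^ 2 + 3 ≠ 0) (h2 : 3 * t ^ 2 + 5 ≠ 0) :
    (3 * t * (t ^ 2 + 7) * (t ^ 4 + 15) * s / ((t ^ 2 + 3) ^ 2 * (3 * t ^ 2 + 5) ^ 2)) ^ 2 =
      (3 * t ^ 2 * (t ^ 2 + 7) ^ 2 / ((t ^ 2 + 3) * (3 * t ^ 2 + 5))) ^ 3 -
      21 * (3 * t ^ 2 * (t ^ 2 + 7) ^ 2 / ((t ^ 2 + 3) * (3 * t ^ 2 + 5))) ^ 2 +
      144 * (3 * t ^ 2 * (t ^ 2 + 7) ^ 2 / ((t ^ 2 + 3) * (3 * t ^ 2 + 5))) := by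
  rw [div_pow, mul_pow _ s, hs]
  field_simp
  ring

variable [Algebra ℚ K] (D : Derivation ℚ K K)

theorem dx_a [CharZero K] {t s : K} (ht : D t = 1) (h1 : t ^ 2 + 3 ≠ 0) (hs0 : s ≠ 0) :
    D (3 * (3 * t ^ 2 + 5) / (t ^ 2 + 3)) / (6 * s / (t ^ 2 + 3) ^ 2) = 4 * t / s := by
  have h3 : D (3 : K) = 0 := by simpa using D.map_natCast 3
  have h5 : D (5 : K) = 0 := by simpa using D.map_natCast 5
  rw [Derivation.leibniz_div]
  simp only [Derivation.leibniz, Derivation.leibniz_pow, map_add, smul_eq_mul, nsmul_eq_mul, ht,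
    h3, h5]
  field_simp
  push_cast
  ring

theorem dx_b [CharZero K] {t s : K} (ht : D t = 1) (h1 : t ^ 2 + 3 ≠ 0) (hs0 : s ≠ 0) :
    D (6 * (t ^ 2 - t + 4) / (t ^ 2 + 3)) / (6 * s / (t ^ 2 + 3) ^ 2) =
      (t ^ 2 - 2 * t - 3) / s := by
  have h3 : D (3 : K) = 0 := by simpa using D.map_natCast 3
  have h4 : D (4 : K) = 0 := by simpa using D.map_natCast 4
  have h6 : D (6 : K) = 0 := by simpa using D.map_natCast 6
  rw [Derivation.leibniz_div]
  simp only [Derivation.leibniz, Derivation.leibniz_pow, map_add, map_sub, smul_eq_mul,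
    nsmul_eq_mul, ht, h3, h4, h6]
  field_simp
  push_cast
  ring

theorem dx_c [CharZero K] {t s : K} (ht : D t = 1) (h1 : t ^ 2 + 3 ≠ 0) (h2 : 3 * t ^ 2 + 5 ≠ 0)
    (hs0 : s ≠ 0) (ht0 : t ≠ 0) (h7 : t ^ 2 + 7 ≠ 0) (h15 : t ^ 4 + 15 ≠ 0) :
    D (3 * t ^ 2 * (t ^ 2 + 7) ^ 2 / ((t ^ 2 + 3) * (3 * t ^ 2 + 5))) /
      (3 * t * (t ^ 2 + 7) * (t ^ 4 + 15) * s / ((t ^ 2 + 3) ^ 2 * (3 * t ^ 2 + 5) ^ 2)) =
      (6 * t ^ 2 + 14) / s := by
  have e3 : D (3 : K) = 0 := by simpa using D.map_natCast 3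
  have e5 : D (5 : K) = 0 := by simpa using D.map_natCast 5
  have e7 : D (7 : K) = 0 := by simpa using D.map_natCast 7
  obtain ⟨A, hA⟩ : ∃ A, A = t ^ 2 + 3 := ⟨_, rfl⟩
  obtain ⟨B, hB⟩ : ∃ B, B = 3 * t ^ 2 + 5 := ⟨_, rfl⟩
  have hDA : D A = 2 * t := by
    rw [hA]
    simp [ht, e3]
  have hDB : D B = 6 * t := by
    rw [hB]
    simp [ht, e3, e5]
    ring
  rw [← hA] at h1 ⊢
  rw [← hB] at h2 ⊢
  rw [Derivation.leibniz_div]
  simp only [Derivation.leibniz, Derivation.leibniz_pow, map_add, smul_eq_mul,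
    nsmul_eq_mul, ht, e3, e7, hDA, hDB]
  field_simp
  push_cast
  rw [hA, hB]
  ring

end points

section final

variable {K : Type} [Field K] [Algebra ℚ K]

theorem map_a1 : (E0⁄K).a₁ = 0 := by simp [E0, WeierstrassCurve.baseChange, WeierstrassCurve.map]
theorem map_a3 : (E0⁄K).a₃ = 0 := by simp [E0, WeierstrassCurve.baseChange, WeierstrassCurve.map]
theorem map_a2 : (E0⁄K).a₂ = -21 := by simp [E0, WeierstrassCurve.baseChange, WeierstrassCurve.map]
theorem map_a4 : (E0⁄K).a₄ = 144 := by simp [E0, WeierstrassCurve.baseChange, WeierstrassCurve.map]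
theorem map_a6 : (E0⁄K).a₆ = 0 := by simp [E0, WeierstrassCurve.baseChange, WeierstrassCurve.map]

theorem nonsing {x y : K} (h : y ^ 2 = x ^ 3 - 21 * x ^ 2 + 144 * x) :
    (E0⁄K).toAffine.Nonsingular x y := by
  apply (Affine.equation_iff_nonsingular_of_Δ_ne_zero ?_).1
  · rw [Affine.equation_iff, map_a1, map_a2, map_a3, map_a4, map_a6, h]
    ring
  · have h0 : (E0⁄K).Δ = algebraMap ℚ K E0.Δ := by
      simp [WeierstrassCurve.baseChange]
    rw [h0]
    have := E0_elliptic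
    rw [isElliptic_iff] at this
    exact (_root_.map_ne_zero _).2 this.ne_zero

variable [DecidableEq K] [CharZero K]

/-- `delta` as a group homomorphism on `E0(K)`. -/
def deltaHom (D : Derivation ℚ K K) : (E0⁄K).toAffine.Point →+ K :=
  AddMonoidHom.mk' (delta D (E0⁄K)) (delta_add D map_a1 map_a3
    (by rw [map_a2, map_neg]; simpa using D.map_natCast 21)
    (by rw [map_a4]; simpa using D.map_natCast 144) (by rw [map_a6, map_zero]))

theorem deltaHom_const (D : Derivation ℚ K K) (Q : (E0⁄ℚ).toAffine.Point) :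
    deltaHom D (Affine.Point.baseChange ℚ K Q) = 0 := by
  rcases Q with _ | ⟨x, y, h⟩
  · rfl
  · change D (algebraMap ℚ K x) / _ = 0
    rw [Derivation.map_algebraMap, zero_div]

end final

theorem result : gPoly.Separable ∧ gPoly.natDegree = 8 ∧ E0.IsElliptic ∧
    JacobianContainsPower gPoly E0 3 := by
  refine ⟨gPoly_separable, gPoly_natDegree, E0_elliptic, ?_⟩
  have hirr : Fact (Irreducible
      (X ^ 2 - C (algebraMap ℚ[X] (RatFunc ℚ) gPoly) : (RatFunc ℚ)[X])) :=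
    ⟨irr gPoly_separable (by rw [gPoly_natDegree]; norm_num)⟩
  obtain ⟨ht, hs, htop⟩ := isFunctionField gPoly
  obtain ⟨D, hD⟩ := exists_derivation gPoly
  have hae : ∀ p : ℚ[X], p ≠ 0 → aeval (algebraMap ℚ[X] (FF gPoly) X) p ≠ 0 :=
    fun p hp h => hp (transcendental_iff.1 ht p h)
  have hDt : D (algebraMap ℚ[X] (FF gPoly) X) = 1 := by rw [hD]; simp
  generalize (algebraMap ℚ[X] (FF gPoly) X) = t at ht hs htop hae hDt
  generalize (AdjoinRoot.root (X ^ 2 - C (algebraMap ℚ[X] (RatFunc ℚ) gPoly) : (RatFunc ℚ)[X]) :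
    FF gPoly) = s at hs htop
  refine ⟨FF gPoly, inferInstance, Classical.decEq _, inferInstance, ⟨t, s, ht, hs, htop⟩, ?_⟩
  let _ : DecidableEq (FF gPoly) := Classical.decEq _
  have hcz : CharZero (FF gPoly) := algebraRat.charZero _
  have hgs : s ^ 2 = 3 * (t ^ 2 + 3) * (3 * t ^ 2 + 5) * (t ^ 4 + 7 * t ^ 2 + 16) := by
    rw [hs, aeval_gPoly]
  have h1 : t ^ 2 + 3 ≠ 0 := by
    have := hae (X ^ 2 + 3) (by
      intro h; have := congrArg (Polynomial.eval 0) h; simp at this)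
    simpa [map_ofNat] using this
  have h2 : 3 * t ^ 2 + 5 ≠ 0 := by
    have := hae (3 * X ^ 2 + 5) (by
      intro h; have := congrArg (Polynomial.eval 0) h; simp at this)
    simpa [map_ofNat] using this
  have h7 : t ^ 2 + 7 ≠ 0 := by
    have := hae (X ^ 2 + 7) (by
      intro h; have := congrArg (Polynomial.eval 0) h; simp at this)
    simpa [map_ofNat] using this
  have h15 : t ^ 4 + 15 ≠ 0 := by
    have := hae (X ^ 4 + 15) (by
      intro h; have := congrArg (Polynomial.eval 0) h; simp at this)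
    simpa [map_ofNat] using this
  have ht0 : t ≠ 0 := by
    have := hae X X_ne_zero
    simpa using this
  have hs0 : s ≠ 0 := by
    intro h
    have := hae gPoly (by
      intro h
      have := gPoly_natDegree
      rw [h] at this
      simp at this)
    rw [← hs, h] at this
    simp at this
  refine ⟨![.some _ _ (nonsing (eqn_a hgs h1)), .some _ _ (nonsing (eqn_b hgs h1)),
    .some _ _ (nonsing (eqn_c hgs h1 h2))], ?_⟩
  rintro n ⟨Q, hQ⟩
  have hsum := congrArg (deltaHom D) hQ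
  rw [deltaHom_const, map_sum, Fin.sum_univ_three] at hsum
  simp only [map_zsmul, Matrix.cons_val_zero, Matrix.cons_val_one, Matrix.cons_val] at hsum
  have ea : deltaHom D (.some _ _ (nonsing (eqn_a hgs h1))) = 4 * t / s := dx_a D hDt h1 hs0
  have eb : deltaHom D (.some _ _ (nonsing (eqn_b hgs h1))) = (t ^ 2 - 2 * t - 3) / s :=
    dx_b D hDt h1 hs0
  have ec : deltaHom D (.some _ _ (nonsing (eqn_c hgs h1 h2))) = (6 * t ^ 2 + 14) / s :=
    dx_c D hDt h1 h2 hs0 ht0 h7 h15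
  rw [ea, eb, ec] at hsum
  simp only [zsmul_eq_mul] at hsum
  have hpoly : aeval t (C (n 0 : ℚ) * (4 * X) + C (n 1 : ℚ) * (X ^ 2 - 2 * X - 3) +
      C (n 2 : ℚ) * (6 * X ^ 2 + 14)) = 0 := by
    simp [map_ofNat]
    field_simp at hsum
    linear_combination hsum
  have hp0 := transcendental_iff.1 ht _ hpoly
  have c0 := congrArg (fun p : ℚ[X] => p.eval 0) hp0
  have c1 := congrArg (fun p : ℚ[X] => p.eval 1) hp0
  have c2 := congrArg (fun p : ℚ[X] => p.eval (-1)) hp0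
  simp at c0 c1 c2
  have q0 : (n 0 : ℚ) = 0 := by linarith
  have q1 : (n 1 : ℚ) = 0 := by linarith
  have q2 : (n 2 : ℚ) = 0 := by linarith
  funext i
  fin_cases i
  · exact_mod_cast q0
  · exact_mod_cast q1
  · exact_mod_cast q2

end

end Pool.Agent.Results.MP_ae744f_nt.CubeJacobian
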